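import Pool.Agent.R782.Bal.Hv

/-!
# The Charney-Davis inequality for colourwise subdivided flag spheres, in terms of the `h`-vector

`IsH G d h`: `h` is the `h`-vector of the flag complex of the graph `G`, of dimension `d - 1`; `HSph d G`: this flag
complex is nonacyclic and Gorenstein over the reals (the links have the real homology of spheres).

(1) `cs X col` is the subdivision of the simplicial complex `X` in which only the simplices all of whose vertices have
the same colour are barycentrically subdivided. For one colour it is the barycentric subdivision (the order complex of
the face poset of `X`); if no simplex with more than one vertex is monochromatic and `X` is a flag complex then it is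
`X`. The colouring is small if there are numbers `a c` with sum at most `e + 1` such that the simplices of colour `c`
have at most `2 a c` vertices.

(2) The class `SQ (e + 1)` has as a base the flag complexes embedded in the sphere of dimension `2 e` which are
properly coloured by `e + 1` colours, and it is closed under the operations listed in its definition.
-/

set_option autoImplicit false

namespace Pool.Agent.Results.MP_32beb3_co.ColouredHVector

open Pool.Agent.W907.SG Pool.Agent.R782.Bal
open Pool.Agent.TH652.Above (HSph chi_sign)

/-- The inequality `(-1)^e (h_0 - h_1 + ... + h_(2e)) ≥ 0` for the flag complexes of dimension `2 e - 1` of the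
following graphs which are nonacyclic and Gorenstein over the reals: (1) `cs X col`, for `X` embedded in the sphere
of dimension `2 e` and a small colouring of its vertices; (2) the graphs in the class `SQ (e + 1)`. -/
theorem result :
    (∀ (e N k : ℕ) (X : Finset (Finset (Fin N))) (col : Fin N → Fin k),
      (∀ σ ∈ X, ∀ τ : Finset (Fin N), τ ⊆ σ → τ ∈ X) → Small e X col → EmbX e X col →
      ∀ [Fintype (MF X col)] [LinearOrder (MF X col)], HSph (2 * e) (cs X col) →
      ∀ h : ℕ → ℤ, IsH (cs X col) (2 * e) h →
        0 ≤ (-1) ^ e * ∑ i ∈ Finset.range (2 * e + 1), (-1) ^ i * h i) ∧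
    (∀ (e : ℕ) (V : Type) [Fintype V] [LinearOrder V] (G : SimpleGraph V), HSph (2 * e) G → SQ (e + 1) G →
      ∀ h : ℕ → ℤ, IsH G (2 * e) h → 0 ≤ (-1) ^ e * ∑ i ∈ Finset.range (2 * e + 1), (-1) ^ i * h i) := by
  refine ⟨?_, ?_⟩
  · intro e N k X col hX hs hE _ _ hS h hh
    exact h_alt_nonneg hS (chi_sign _ fun i hi => singer_cs (Or.inl rfl) hX hs hE hS i (by omega)) hh
  · intro e V _ _ G hS hA h hh
    exact h_alt_nonneg hS (charney_davis_SQ hS hA) hh

end Pool.Agent.Results.MP_32beb3_co.ColouredHVector
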