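import Pool.Agent.R580.CD.AmpF

/-!
# The Charney–Davis inequality for Gorenstein flag complexes improves itself

Let `F` be a field. The clique complex of a finite graph `G` (these are all finite flag complexes) of dimension
`d - 1` is nonacyclic and Gorenstein over `F` if, for every simplex `T` (the empty one included), the link of `T`
has the reduced Betti numbers over `F` of the sphere of dimension `d - 1 - |T|` (`Sph F d G`). The number
`altH d G = ∑_T (-1)^|T| 2^(d-|T|)` is `h_0 - h_1 + h_2 - … + h_d` (put `x = -1` in the definition of the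
`h`-vector). The inequality is `(-1)^e altH (2e) G ≥ 0`.

If the complex has `N` vertices then `|altH (2e) G| = O(N^e)`.

(1) If the inequality fails for one complex of dimension `2n-1`, then for every `m ≥ n` there are `c > 0` and
complexes of dimension `2m-1` with arbitrarily large numbers `N` of vertices and
`(-1)^m altH ≤ - c N^(m-n+1)`.

(2) The inequality in the dimension `2n - 1` is equivalent to `(-1)^n altH ≥ - o(N)` in the same dimension.

(3) The inequality in all dimensions is equivalent to an unbounded power saving: for each `B` there is some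
`m ≥ B` such that `(-1)^m altH ≥ - O(N^(m-B))` in the dimension `2m-1`.

Proof. Doubles along the complement of the open star of a vertex, and joins with long cycles.
-/

set_option autoImplicit false

namespace Pool.Agent.Results.MP_32beb3_co.SelfImprovement

open Pool.Agent.R580.CD

open Classical in
/-- `h_0 - h_1 + h_2 - … + h_d`, that is, the sum of `(-1)^|T| 2^(d-|T|)` over the simplices `T`. -/
noncomputable def altH (d : ℕ) {V : Type} [Fintype V] (G : SimpleGraph V) : ℤ :=
  ∑ T : Finset V, if G.IsClique (T : Set V) then (-1) ^ T.card * 2 ^ (d - T.card) else 0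

theorem altH_eq {F : Type} [Field F] {V : Type} [Fintype V] [LinearOrder V] {d : ℕ} {G : SimpleGraph V}
    (hS : Sph F d G) : (altH d G : ℚ) = 2 ^ d * omega G := by
  classical
  unfold altH omega
  rw [Finset.mul_sum, Int.cast_sum]
  refine Finset.sum_congr rfl fun T _ => ?_
  by_cases hT : G.IsClique (T : Set V)
  · rw [if_pos hT, if_pos hT]
    obtain ⟨j, hj⟩ := Nat.exists_eq_add_of_le (hS.card hT)
    rw [hj, Nat.add_sub_cancel_left, div_pow, pow_add]
    push_cast
    field_simp
  · rw [if_neg hT, if_neg hT, mul_zero, Int.cast_zero]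

/-- The Charney–Davis inequality for the flag complexes of dimension `2 n - 1` which are nonacyclic and
Gorenstein over `F`. -/
def CharneyDavis (F : Type) [Field F] (n : ℕ) : Prop :=
  ∀ (V : Type) [Fintype V] [LinearOrder V] (G : SimpleGraph V), Sph F (2 * n) G →
    0 ≤ (-1) ^ n * altH (2 * n) G

theorem amplifyH {F : Type} [Field F] {V : Type} [Fintype V] [LinearOrder V] {n m : ℕ} {G : SimpleGraph V}
    (hn : 1 ≤ n) (hm : n ≤ m) (hS : Sph F (2 * n) G) (hneg : (-1) ^ n * altH (2 * n) G < 0) :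
    ∃ c : ℚ, 0 < c ∧ ∀ N : ℕ,
      ∃ (W : Type) (_ : Fintype W) (_ : LinearOrder W) (H : SimpleGraph W), Sph F (2 * m) H ∧
        N ≤ Fintype.card W ∧
        ((-1) ^ m * altH (2 * m) H : ℚ) ≤ - c * (Fintype.card W : ℚ) ^ (m - n + 1) := by
  have h1 : (-1) ^ n * omega G < 0 := by
    have h2 : ((-1) ^ n * altH (2 * n) G : ℚ) < 0 := by exact_mod_cast hneg
    rw [altH_eq hS] at h2
    have h3 : (0 : ℚ) < 2 ^ (2 * n) := by positivity
    by_contra hcon
    push Not at hcon
    have h4 := mul_nonneg h3.le hcon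
    linarith
  obtain ⟨c, hc, h⟩ := amplifyF hn hm hS h1
  refine ⟨2 ^ (2 * m) * c, by positivity, fun N => ?_⟩
  obtain ⟨W, i1, i2, H, h2, h3, h4⟩ := h N
  refine ⟨W, i1, i2, H, h2, h3, ?_⟩
  rw [altH_eq h2]
  have h5 : (0 : ℚ) < 2 ^ (2 * m) := by positivity
  have h6 := mul_le_mul_of_nonneg_left h4 h5.le
  linarith

/-- **Self-improvement of the Charney–Davis inequality over a field.** -/
theorem result (F : Type) [Field F] :
    (∀ (n m : ℕ) (V : Type) [Fintype V] [LinearOrder V] (G : SimpleGraph V), 1 ≤ n → n ≤ m →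
      Sph F (2 * n) G → (-1) ^ n * altH (2 * n) G < 0 → ∃ c : ℚ, 0 < c ∧ ∀ N : ℕ,
        ∃ (W : Type) (_ : Fintype W) (_ : LinearOrder W) (H : SimpleGraph W), Sph F (2 * m) H ∧
          N ≤ Fintype.card W ∧
          ((-1) ^ m * altH (2 * m) H : ℚ) ≤ - c * (Fintype.card W : ℚ) ^ (m - n + 1)) ∧
    (∀ n : ℕ, 1 ≤ n → (CharneyDavis F n ↔ ∀ ε : ℚ, 0 < ε → ∃ C : ℚ,
      ∀ (W : Type) [Fintype W] [LinearOrder W] (H : SimpleGraph W), Sph F (2 * n) H →
        - (ε * Fintype.card W + C) ≤ ((-1) ^ n * altH (2 * n) H : ℚ))) ∧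
    ((∀ n : ℕ, 1 ≤ n → CharneyDavis F n) ↔ ∀ B : ℕ, ∃ m : ℕ, B ≤ m ∧ ∃ C : ℚ,
      ∀ (W : Type) [Fintype W] [LinearOrder W] (H : SimpleGraph W), Sph F (2 * m) H →
        - C * (Fintype.card W : ℚ) ^ (m - B) ≤ ((-1) ^ m * altH (2 * m) H : ℚ)) := by
  refine ⟨fun n m V _ _ G hn hm hS hneg => amplifyH hn hm hS hneg, fun n hn => ⟨?_, ?_⟩, ⟨?_, ?_⟩⟩
  · intro h ε hε
    refine ⟨0, fun W _ _ H hH => ?_⟩
    have h1 : (0 : ℚ) ≤ (-1) ^ n * altH (2 * n) H := by exact_mod_cast h W H hH
    have h2 : 0 ≤ ε * Fintype.card W := by positivity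
    linarith
  · intro h V _ _ G hS
    by_contra hcon
    push Not at hcon
    obtain ⟨c, hc, hamp⟩ := amplifyH hn le_rfl hS hcon
    obtain ⟨C, hC⟩ := h (c / 2) (by positivity)
    obtain ⟨N, hN⟩ := exists_nat_gt (2 * C / c)
    obtain ⟨W, i1, i2, H, h1, h2, h3⟩ := hamp N
    have h4 := hC W H h1
    rw [Nat.sub_self, zero_add, pow_one] at h3
    have h5 : (N : ℚ) ≤ Fintype.card W := by exact_mod_cast h2
    rw [div_lt_iff₀ hc] at hN
    have h6 : (N : ℚ) * c ≤ Fintype.card W * c := mul_le_mul_of_nonneg_right h5 hc.le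
    nlinarith
  · intro h B
    refine ⟨B + 1, by omega, 0, fun W _ _ H hH => ?_⟩
    rw [neg_zero, zero_mul]
    exact_mod_cast h (B + 1) (by omega) W H hH
  · intro h n hn V _ _ G hS
    by_contra hcon
    push Not at hcon
    obtain ⟨m, hm, C, hC⟩ := h n
    obtain ⟨c, hc, hamp⟩ := amplifyH hn hm hS hcon
    obtain ⟨N, hN⟩ := exists_nat_gt (C / c)
    obtain ⟨W, i1, i2, H, h1, h2, h3⟩ := hamp (N + 1)
    have h4 := hC W H h1
    have h5 : (N : ℚ) + 1 ≤ Fintype.card W := by exact_mod_cast h2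
    rw [div_lt_iff₀ hc] at hN
    have h6 : 0 < (Fintype.card W : ℚ) ^ (m - n) := by
      have : (0 : ℚ) < Fintype.card W := by
        have : (0 : ℚ) ≤ N := by positivity
        linarith
      positivity
    have h7 : - C * (Fintype.card W : ℚ) ^ (m - n) ≤ - c * (Fintype.card W : ℚ) ^ (m - n + 1) := h4.trans h3
    rw [pow_succ] at h7
    have h8 : c * (Fintype.card W : ℚ) * (Fintype.card W : ℚ) ^ (m - n) ≤ C * (Fintype.card W : ℚ) ^ (m - n) := by
      nlinarith
    have h9 := le_of_mul_le_mul_right h8 h6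
    nlinarith

end Pool.Agent.Results.MP_32beb3_co.SelfImprovement
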